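import Pool.Agent.helper84.ZD.SpecA
import Pool.Agent.helper59.DM.DV

/-!
# Project zd, module DVS: weighted sum of the Fourier coefficients over products
-/

set_option autoImplicit false

open Complex MeasureTheory

namespace Pool.Agent.ZD

open Pool.Agent.helper84.DM Pool.Agent.helper78.ED Pool.Agent.DH

theorem DVS_fib (J K : Finset ℤ) (n : ℤ) (hn : n ≠ 0) :
    ((J ×ˢ K).filter (fun p : ℤ × ℤ => p.1 * p.2 = n)).card ≤ 2 * n.natAbs.divisors.card := by
  have h : ((J ×ˢ K).filter (fun p : ℤ × ℤ => p.1 * p.2 = n)).card ≤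
      (n.natAbs.divisors ×ˢ (Finset.univ : Finset Bool)).card := by
    apply Finset.card_le_card_of_injOn (fun p : ℤ × ℤ => (p.2.natAbs, decide (0 < p.2)))
    · intro p hp
      rw [Finset.mem_coe, Finset.mem_filter] at hp
      rw [Finset.mem_coe, Finset.mem_product]
      refine ⟨?_, Finset.mem_univ _⟩
      rw [Nat.mem_divisors]
      refine ⟨?_, Int.natAbs_ne_zero.2 hn⟩
      refine ⟨p.1.natAbs, ?_⟩
      rw [← hp.2, Int.natAbs_mul, mul_comm]
    · intro p hp q hq hpq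
      rw [Finset.mem_coe, Finset.mem_filter] at hp hq
      have h1 : p.2.natAbs = q.2.natAbs := congrArg Prod.fst hpq
      have h2 : decide (0 < p.2) = decide (0 < q.2) := congrArg Prod.snd hpq
      have h3 : (0 < p.2) ↔ (0 < q.2) := decide_eq_decide.1 h2
      have h4 : p.2 = q.2 := by
        rcases Int.natAbs_eq_natAbs_iff.1 h1 with h | h
        · exact h
        · by_cases hp0 : 0 < p.2
          · have := h3.1 hp0
            omega
          · have hq0 : ¬ 0 < q.2 := fun h' => hp0 (h3.2 h')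
            omega
      have h5 : p.2 ≠ 0 := by
        intro h0
        apply hn
        rw [← hp.2, h0, mul_zero]
      have h6 : p.1 * p.2 = q.1 * p.2 := by
        rw [hp.2, h4, hq.2]
      exact Prod.ext (mul_right_cancel₀ h5 h6) h4
  refine h.trans ?_
  rw [Finset.card_product, Finset.card_univ, Fintype.card_bool, mul_comm]

theorem DVS_card (M : ℕ) : ((MM M).card : ℝ) ≤ 2 * M := by
  have h : (MM M).card = 2 * M := by
    unfold MM
    rw [Finset.card_erase_of_mem, Int.card_Icc]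
    · omega
    · rw [Finset.mem_Icc]
      omega
  rw [h]
  push_cast
  exact le_rfl

theorem DVS_abs (M : ℕ) (m : ℤ) (hm : m ∈ MM M) : m ≠ 0 ∧ |(m : ℝ)| ≤ M := by
  unfold MM at hm
  rw [Finset.mem_erase, Finset.mem_Icc] at hm
  refine ⟨hm.1, ?_⟩
  have h : |m| ≤ (M : ℤ) := abs_le.2 ⟨hm.2.1, hm.2.2⟩
  have h2 : ((|m| : ℤ) : ℝ) ≤ ((M : ℤ) : ℝ) := by exact_mod_cast h
  rwa [Int.cast_abs, Int.cast_natCast] at h2

theorem DVS_exp (y e : ℝ) (hy : 0 ≤ y) (he : 0 ≤ e) (he1 : e ≤ 1) :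
    y ^ e * Real.exp (-y) ≤ 1 := by
  have h1 : y ^ e ≤ (y + 1) ^ e := Real.rpow_le_rpow hy (by linarith) he
  have h2 : (y + 1) ^ e ≤ (y + 1) ^ (1 : ℝ) :=
    Real.rpow_le_rpow_of_exponent_le (by linarith) he1
  rw [Real.rpow_one] at h2
  have h3 : y + 1 ≤ Real.exp y := Real.add_one_le_exp y
  calc y ^ e * Real.exp (-y) ≤ Real.exp y * Real.exp (-y) :=
        mul_le_mul_of_nonneg_right (h1.trans (h2.trans h3)) (Real.exp_pos _).le
    _ = 1 := by rw [← Real.exp_add, add_neg_cancel, Real.exp_zero]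

theorem DVS (h : BES_stmt) : DVS_stmt := by
  intro ε hε
  have hε' : 0 < min ε 1 := lt_min hε one_pos
  obtain ⟨C0, hC0, hdiv⟩ := divisor_bound (min ε 1) hε'
  refine ⟨4 * C0 * (150 * Real.exp 5), by positivity, fun f X M J hf hX hM hJ => ?_⟩
  have hMR : (1 : ℝ) ≤ M := by exact_mod_cast hM
  have hM0 : (0 : ℝ) < M := by linarith
  have hX0 : 0 < X := by linarith
  have hMX : (1 : ℝ) ≤ M * X := by nlinarith
  have hMX0 : (0 : ℝ) < M * X := by linarith
  -- Cauchy-Schwarz for every `j`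
  have hterm : ∀ j ∈ J, Real.exp (-(|(j : ℝ)| / X)) * ‖∑ m ∈ MM M, cf f (j * m)‖ ^ 2 ≤
      ∑ m ∈ MM M, (2 * M) * (Real.exp (-(|((j * m : ℤ) : ℝ)| / (M * X))) * ‖cf f (j * m)‖ ^ 2) := by
    intro j hj
    have h1 : ‖∑ m ∈ MM M, cf f (j * m)‖ ^ 2 ≤ (2 * M) * ∑ m ∈ MM M, ‖cf f (j * m)‖ ^ 2 := by
      calc ‖∑ m ∈ MM M, cf f (j * m)‖ ^ 2 ≤ (∑ m ∈ MM M, ‖cf f (j * m)‖) ^ 2 :=
            pow_le_pow_left₀ (norm_nonneg _) (norm_sum_le _ _) 2
        _ ≤ ((MM M).card : ℝ) * ∑ m ∈ MM M, ‖cf f (j * m)‖ ^ 2 := sq_sum_le_card_mul_sum_sq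
        _ ≤ _ := mul_le_mul_of_nonneg_right (DVS_card M)
            (Finset.sum_nonneg fun _ _ => by positivity)
    calc Real.exp (-(|(j : ℝ)| / X)) * ‖∑ m ∈ MM M, cf f (j * m)‖ ^ 2
        ≤ Real.exp (-(|(j : ℝ)| / X)) * ((2 * M) * ∑ m ∈ MM M, ‖cf f (j * m)‖ ^ 2) :=
          mul_le_mul_of_nonneg_left h1 (Real.exp_pos _).le
      _ = ∑ m ∈ MM M, (2 * M) * (Real.exp (-(|(j : ℝ)| / X)) * ‖cf f (j * m)‖ ^ 2) := by
          rw [Finset.mul_sum, Finset.mul_sum]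
          refine Finset.sum_congr rfl fun m _ => ?_
          ring
      _ ≤ _ := by
          refine Finset.sum_le_sum fun m hm => ?_
          refine mul_le_mul_of_nonneg_left ?_ (by positivity)
          refine mul_le_mul_of_nonneg_right ?_ (by positivity)
          apply Real.exp_le_exp.2
          have h2 := (DVS_abs M m hm).2
          rw [neg_le_neg_iff, div_le_div_iff₀ hMX0 hX0, Int.cast_mul, abs_mul]
          have h3 : 0 ≤ |(j : ℝ)| := abs_nonneg _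
          nlinarith [mul_nonneg h3 hX0.le, mul_le_mul_of_nonneg_left h2 (mul_nonneg h3 hX0.le)]
  refine (Finset.sum_le_sum hterm).trans ?_
  rw [← Finset.sum_product' J (MM M) (fun j m => (2 * (M : ℝ)) *
    (Real.exp (-(|((j * m : ℤ) : ℝ)| / (M * X))) * ‖cf f (j * m)‖ ^ 2))]
  have hcomp := Finset.sum_comp (s := J ×ˢ MM M) (fun n : ℤ => (2 * (M : ℝ)) *
    (Real.exp (-(|((n : ℤ) : ℝ)| / (M * X))) * ‖cf f n‖ ^ 2)) (fun p : ℤ × ℤ => p.1 * p.2)
  rw [hcomp]
  have hbound : ∀ n ∈ (J ×ˢ MM M).image (fun p : ℤ × ℤ => p.1 * p.2),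
      ((J ×ˢ MM M).filter (fun p : ℤ × ℤ => p.1 * p.2 = n)).card •
        ((2 * (M : ℝ)) * (Real.exp (-(|((n : ℤ) : ℝ)| / (M * X))) * ‖cf f n‖ ^ 2)) ≤
      (4 * C0 * (M * X) ^ ε * M) * ‖cf f n‖ ^ 2 := by
    intro n hn
    rw [Finset.mem_image] at hn
    obtain ⟨p, hp, hpn⟩ := hn
    rw [Finset.mem_product] at hp
    have hn0 : n ≠ 0 := by
      rw [← hpn]
      exact mul_ne_zero (fun h0 => hJ (h0 ▸ hp.1)) (DVS_abs M _ hp.2).1
    have hcard := DVS_fib J (MM M) n hn0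
    have hcardR : (((J ×ˢ MM M).filter (fun p : ℤ × ℤ => p.1 * p.2 = n)).card : ℝ) ≤
        2 * d n.natAbs := by
      unfold d
      exact_mod_cast hcard
    have hd := hdiv n.natAbs (Int.natAbs_pos.2 hn0)
    have habs : ((n.natAbs : ℕ) : ℝ) = |(n : ℝ)| := by
      rw [Nat.cast_natAbs, Int.cast_abs]
    rw [habs] at hd
    set y : ℝ := |(n : ℝ)| / (M * X) with hy
    have hy0 : 0 ≤ y := by positivity
    have hn' : |(n : ℝ)| = (M * X) * y := by
      rw [hy]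
      field_simp
    have h1 : |(n : ℝ)| ^ (min ε 1) = (M * X) ^ (min ε 1) * y ^ (min ε 1) := by
      rw [hn', Real.mul_rpow hMX0.le hy0]
    have h2 := DVS_exp y (min ε 1) hy0 hε'.le (min_le_right _ _)
    have h3 : (M * X : ℝ) ^ (min ε 1) ≤ (M * X) ^ ε :=
      Real.rpow_le_rpow_of_exponent_le hMX (min_le_left _ _)
    have h4 : d n.natAbs * Real.exp (-y) ≤ C0 * (M * X) ^ ε := by
      calc d n.natAbs * Real.exp (-y) ≤ (C0 * |(n : ℝ)| ^ (min ε 1)) * Real.exp (-y) :=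
            mul_le_mul_of_nonneg_right hd (Real.exp_pos _).le
        _ = (C0 * (M * X) ^ (min ε 1)) * (y ^ (min ε 1) * Real.exp (-y)) := by
            rw [h1]
            ring
        _ ≤ (C0 * (M * X) ^ (min ε 1)) * 1 :=
            mul_le_mul_of_nonneg_left h2 (by positivity)
        _ ≤ C0 * (M * X) ^ ε := by
            rw [mul_one]
            exact mul_le_mul_of_nonneg_left h3 hC0.le
    rw [nsmul_eq_mul]
    have hc0 : 0 ≤ ‖cf f n‖ ^ 2 := by positivity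
    calc (((J ×ˢ MM M).filter (fun p : ℤ × ℤ => p.1 * p.2 = n)).card : ℝ) *
          ((2 * (M : ℝ)) * (Real.exp (-y) * ‖cf f n‖ ^ 2))
        ≤ (2 * d n.natAbs) * ((2 * (M : ℝ)) * (Real.exp (-y) * ‖cf f n‖ ^ 2)) :=
          mul_le_mul_of_nonneg_right hcardR (by positivity)
      _ = (4 * M * ‖cf f n‖ ^ 2) * (d n.natAbs * Real.exp (-y)) := by ring
      _ ≤ (4 * M * ‖cf f n‖ ^ 2) * (C0 * (M * X) ^ ε) :=
          mul_le_mul_of_nonneg_left h4 (by positivity)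
      _ = _ := by ring
  refine (Finset.sum_le_sum hbound).trans ?_
  rw [← Finset.mul_sum]
  have hb := h f ((J ×ˢ MM M).image (fun p : ℤ × ℤ => p.1 * p.2)) hf
  calc (4 * C0 * (M * X) ^ ε * M) *
        ∑ n ∈ (J ×ˢ MM M).image (fun p : ℤ × ℤ => p.1 * p.2), ‖cf f n‖ ^ 2
      ≤ (4 * C0 * (M * X) ^ ε * M) * (150 * Real.exp 5 * ∫ a in (-5 : ℝ)..5, f a ^ 2) :=
        mul_le_mul_of_nonneg_left hb (by positivity)
    _ = _ := by ring

end Pool.Agent.ZD
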